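import Pool.Agent.Q281.KG.Gam

/-!
# Almost invariant sets of the group of Kurosh type

An almost invariant set `A` of `Gam` is determined by the finite set `A ∆ A a₀` up to complement.
-/

set_option autoImplicit false

namespace Pool.Agent.Q281.KG

open FreeGroup

section free
variable {α : Type} [DecidableEq α]

theorem getLast_of_norm_le (s : FreeGroup α) (x : α × Bool)
    (h : norm (s * FreeGroup.mk [x]) ≤ norm s) : s.toWord.getLast? = some (x.1, !x.2) := by
  by_contra hne
  have hred : FreeGroup.IsReduced (s.toWord ++ [x]) := by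
    unfold FreeGroup.IsReduced
    rw [List.isChain_append]
    refine ⟨isReduced_toWord, by simp, ?_⟩
    intro y hy z hz h1
    simp only [List.head?_cons, Option.mem_def, Option.some.injEq] at hz
    subst hz
    by_contra h2
    apply hne
    rw [Option.mem_def] at hy
    rw [hy]
    congr 1
    obtain ⟨y1, y2⟩ := y
    obtain ⟨z1, z2⟩ := x
    simp only at h1 h2
    subst h1
    cases y2 <;> cases z2 <;> simp_all
  have h3 : (s * FreeGroup.mk [x]).toWord = s.toWord ++ [x] := by
    rw [toWord_mul, toWord_mk, reduce_singleton, hred.reduce_eq]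
  unfold FreeGroup.norm at h
  rw [h3] at h
  simp at h

/-- finite closed chains in the Cayley graph of a free group vanish -/
theorem chain_zero {p q : α} (hpq : p ≠ q) (x y : FreeGroup α → Prop)
    (hx : {s | x s}.Finite) (hy : {s | y s}.Finite)
    (h : ∀ s, (Xor (Xor (x s) (x (s * of p))) (Xor (y s) (y (s * of q)))) → False) :
    (∀ s, ¬ x s) ∧ ∀ s, ¬ y s := by
  classical
  let V : Set (FreeGroup α) := {s | x s ∨ x (s * of p) ∨ y s ∨ y (s * of q)}
  have hV : V.Finite := by
    have h1 : V ⊆ {s | x s} ∪ ((fun s => s * (of p)⁻¹) '' {s | x s}) ∪ {s | y s} ∪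
        ((fun s => s * (of q)⁻¹) '' {s | y s}) := by
      rintro s (hs | hs | hs | hs)
      · exact Or.inl (Or.inl (Or.inl hs))
      · exact Or.inl (Or.inl (Or.inr ⟨s * of p, hs, by simp⟩))
      · exact Or.inl (Or.inr hs)
      · exact Or.inr ⟨s * of q, hs, by simp⟩
    exact (((hx.union (hx.image _)).union hy).union (hy.image _)).subset h1
  by_contra hcon
  have hne : V.Nonempty := by
    by_contra hV0
    apply hcon
    rw [Set.not_nonempty_iff_eq_empty] at hV0
    constructor
    · intro s hs
      have : s ∈ V := Or.inl hs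
      rw [hV0] at this; exact this
    · intro s hs
      have : s ∈ V := Or.inr (Or.inr (Or.inl hs))
      rw [hV0] at this; exact this
  obtain ⟨s, hs, hmax⟩ := Set.exists_max_image V norm hV hne
  have k1 : x s → s.toWord.getLast? = some (p, true) := by
    intro hxs
    have h1 : s * (of p)⁻¹ ∈ V := Or.inr (Or.inl (by simpa using hxs))
    have h2 := hmax _ h1
    have h3 : (of p)⁻¹ = FreeGroup.mk [(p, false)] := by
      simp [of, FreeGroup.inv_mk, FreeGroup.invRev]
    rw [h3] at h2
    simpa using getLast_of_norm_le s (p, false) h2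
  have k2 : x (s * of p) → s.toWord.getLast? = some (p, false) := by
    intro hxs
    have h1 : s * (of p) ∈ V := Or.inl hxs
    have h2 := hmax _ h1
    simpa using getLast_of_norm_le s (p, true) h2
  have k3 : y s → s.toWord.getLast? = some (q, true) := by
    intro hxs
    have h1 : s * (of q)⁻¹ ∈ V := Or.inr (Or.inr (Or.inr (by simpa using hxs)))
    have h2 := hmax _ h1
    have h3 : (of q)⁻¹ = FreeGroup.mk [(q, false)] := by
      simp [of, FreeGroup.inv_mk, FreeGroup.invRev]
    rw [h3] at h2
    simpa using getLast_of_norm_le s (q, false) h2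
  have k4 : y (s * of q) → s.toWord.getLast? = some (q, false) := by
    intro hxs
    have h1 : s * (of q) ∈ V := Or.inr (Or.inr (Or.inl hxs))
    have h2 := hmax _ h1
    simpa using getLast_of_norm_le s (q, true) h2
  apply h s
  have hqp : q ≠ p := hpq.symm
  by_cases c1 : x s
  · have e := k1 c1
    have n2 : ¬ x (s * of p) := fun c => by have := k2 c; rw [e] at this; simp at this
    have n3 : ¬ y s := fun c => by have := k3 c; rw [e] at this; simp [hpq] at this
    have n4 : ¬ y (s * of q) := fun c => by have := k4 c; rw [e] at this; simp [hpq] at this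
    simp [Xor, c1, n2, n3, n4]
  · by_cases c2 : x (s * of p)
    · have e := k2 c2
      have n3 : ¬ y s := fun c => by have := k3 c; rw [e] at this; simp [hpq] at this
      have n4 : ¬ y (s * of q) := fun c => by have := k4 c; rw [e] at this; simp [hpq] at this
      simp [Xor, c1, c2, n3, n4]
    · by_cases c3 : y s
      · have e := k3 c3
        have n4 : ¬ y (s * of q) := fun c => by have := k4 c; rw [e] at this; simp at this
        simp [Xor, c1, c2, c3, n4]
      · have c4 : y (s * of q) := by
          rcases hs with hs | hs | hs | hs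
          · exact absurd hs c1
          · exact absurd hs c2
          · exact absurd hs c3
          · exact hs
        simp [Xor, c1, c2, c3, c4]

end free

/-- `A` and `A g` differ by a finite set, for all `g` -/
def AInv {G : Type} [Group G] (A : Set G) : Prop :=
  ∀ g : G, (symmDiff A ((fun x => x * g) '' A)).Finite

theorem mem_image_mul {G : Type} [Group G] (A : Set G) (g s : G) :
    s ∈ (fun x => x * g) '' A ↔ s * g⁻¹ ∈ A := by
  constructor
  · rintro ⟨x, hx, rfl⟩
    simpa using hx
  · intro h
    exact ⟨s * g⁻¹, h, by simp⟩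

theorem AInv.finite {G : Type} [Group G] {A : Set G} (hA : AInv A) (g : G) :
    {s | Xor (s ∈ A) (s * g ∈ A)}.Finite := by
  apply (hA g⁻¹).subset
  intro s hs
  rw [Set.mem_symmDiff, mem_image_mul, inv_inv]
  exact hs

theorem rigid_step {A : Set Gam} (hA : AInv A) (m : ℕ) (h : ∀ s, s * a m ∈ A ↔ s ∈ A) :
    (∀ s, s * a (m + 1) ∈ A ↔ s ∈ A) ∧ ∀ s, s * b m ∈ A ↔ s ∈ A := by
  have key : ∀ s0 : Gam, (¬ Xor (s0 ∈ A) (s0 * a (m + 1) ∈ A)) ∧
      ¬ Xor (s0 ∈ A) (s0 * b m ∈ A) := by
    intro s0
    -- the relation at all points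
    have hrel : ∀ s, Xor (Xor (Xor (s * (a (m + 1) ^ 2)⁻¹ ∈ A)
        (s * (a (m + 1) ^ 2)⁻¹ * a (m + 1) ∈ A))
        (Xor (s * (a (m + 1) ^ 2)⁻¹ * a (m + 1) ∈ A)
          (s ∈ A))) (Xor (Xor (s ∈ A) (s * b m ∈ A)) (Xor (s * b m ∈ A) (s * b m * b m ∈ A)))
          → False := by
      intro s
      have h1 := h (s * (a (m + 1) ^ 2)⁻¹)
      rw [rel m] at h1
      have e1 : s * (a (m + 1) ^ 2)⁻¹ * (a (m + 1) ^ 2 * b m ^ 2) = s * b m * b m := by
        rw [pow_two (b m)]; group
      rw [e1] at h1
      by_cases c1 : s * (a (m + 1) ^ 2)⁻¹ ∈ A <;>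
      by_cases c2 : s * (a (m + 1) ^ 2)⁻¹ * a (m + 1) ∈ A <;>
      by_cases c3 : s ∈ A <;> by_cases c4 : s * b m ∈ A <;> by_cases c5 : s * b m * b m ∈ A <;>
      simp_all [Xor]
    -- restrict to a coset
    have fin1 : ∀ g : Gam, {w : FreeGroup (Option ℕ) | Xor (s0 * st (m + 1) w ∈ A)
        (s0 * st (m + 1) w * g ∈ A)}.Finite := by
      intro g
      refine Set.Finite.preimage (f := fun w => s0 * st (m + 1) w) ?_ (hA.finite g)
      intro u _ v _ huv
      exact st_injective (m + 1) (mul_left_cancel huv)
    have fin2 : {w : FreeGroup (Option ℕ) | Xor (s0 * st (m + 1) (w * ((of none) ^ 2)⁻¹) ∈ A)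
        (s0 * st (m + 1) (w * ((of none) ^ 2)⁻¹) * a (m + 1) ∈ A)}.Finite := by
      refine Set.Finite.preimage (f := fun w => w * ((of none) ^ 2)⁻¹) ?_ (fin1 (a (m + 1)))
      intro u _ v _ huv
      exact mul_right_cancel huv
    have hc := chain_zero (p := (none : Option ℕ)) (q := some m) (by simp)
      (fun w => Xor (s0 * st (m + 1) (w * ((of none) ^ 2)⁻¹) ∈ A)
        (s0 * st (m + 1) (w * ((of none) ^ 2)⁻¹) * a (m + 1) ∈ A))
      (fun w => Xor (s0 * st (m + 1) w ∈ A) (s0 * st (m + 1) w * b m ∈ A)) fin2 (fin1 (b m)) (by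
        intro w hw
        apply hrel (s0 * st (m + 1) w)
        simp only [_root_.map_mul, _root_.map_inv, map_pow, st_none, st_some] at hw ⊢
        have e1 : s0 * (st (m + 1) w * (a (m + 1) ^ 2)⁻¹) =
          s0 * st (m + 1) w * (a (m + 1) ^ 2)⁻¹ := by group
        have e2 : s0 * (st (m + 1) w * a (m + 1) * (a (m + 1) ^ 2)⁻¹) =
          s0 * st (m + 1) w * (a (m + 1) ^ 2)⁻¹ * a (m + 1) := by group
        have e3 : s0 * (st (m + 1) w * a (m + 1) * (a (m + 1) ^ 2)⁻¹) * a (m + 1) =
          s0 * st (m + 1) w := by group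
        have e4 : s0 * (st (m + 1) w * b m) = s0 * st (m + 1) w * b m := by group
        rw [e1, e3, e2, e4] at hw
        exact hw)
    constructor
    · have := hc.1 ((of none) ^ 2)
      simpa using this
    · have := hc.2 1
      simpa using this
  constructor
  · intro s
    have := (key s).1
    unfold Xor at this
    tauto
  · intro s
    have := (key s).2
    unfold Xor at this
    tauto

theorem rigid {A : Set Gam} (hA : AInv A) (h : ∀ s, s * a 0 ∈ A ↔ s ∈ A) :
    A = ∅ ∨ A = Set.univ := by
  have h1 : ∀ m, ∀ s, s * a m ∈ A ↔ s ∈ A := by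
    intro m
    induction m with
    | zero => exact h
    | succ m ih => exact (rigid_step hA m ih).1
  have h2 : ∀ m, ∀ s, s * b m ∈ A ↔ s ∈ A := fun m => (rigid_step hA m (h1 m)).2
  have h3 : ∀ g : Gam, ∀ s, s * g ∈ A ↔ s ∈ A := by
    intro g
    have hg : g ∈ Subgroup.closure (Set.range (PresentedGroup.of : (ℕ ⊕ ℕ) → Gam)) := by
      rw [PresentedGroup.closure_range_of]; trivial
    induction hg using Subgroup.closure_induction with
    | mem x hx =>
      obtain ⟨(m | m), rfl⟩ := hx
      · exact h1 m
      · exact h2 m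
    | one => intro s; rw [mul_one]
    | mul x y _ _ hx hy =>
      intro s
      rw [← mul_assoc, hy, hx]
    | inv x _ hx =>
      intro s
      rw [← hx (s * x⁻¹), inv_mul_cancel_right]
  by_cases h4 : (1 : Gam) ∈ A
  · right
    ext g
    have := h3 g 1
    rw [one_mul] at this
    simp [this, h4]
  · left
    ext g
    have := h3 g 1
    rw [one_mul] at this
    simp [this, h4]

theorem AInv.symmDiff {G : Type} [Group G] {A B : Set G} (hA : AInv A) (hB : AInv B) :
    AInv (symmDiff A B) := by
  intro g
  apply ((hA g).union (hB g)).subset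
  intro s hs
  rw [Set.mem_union, Set.mem_symmDiff, Set.mem_symmDiff, mem_image_mul, mem_image_mul]
  rw [Set.mem_symmDiff, mem_image_mul, Set.mem_symmDiff, Set.mem_symmDiff] at hs
  tauto

/-- **The group of Kurosh type has only countably many almost invariant sets.** -/
theorem countable_aInv : {A : Set Gam | AInv A}.Countable := by
  classical
  have hsub : {A : Set Gam | AInv A} ⊆ ⋃ T : Finset Gam,
      {A : Set Gam | AInv A ∧ _root_.symmDiff A ((fun x => x * a 0) '' A) = ↑T} := by
    intro A hA
    rw [Set.mem_iUnion]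
    exact ⟨(hA (a 0)).toFinset, hA, by simp⟩
  refine Set.Countable.mono hsub (Set.countable_iUnion fun T => ?_)
  by_cases hne : {A : Set Gam | AInv A ∧
      _root_.symmDiff A ((fun x => x * a 0) '' A) = ↑T}.Nonempty
  · obtain ⟨A0, hA0, hT0⟩ := hne
    apply Set.Countable.mono (s₂ := {A0, A0ᶜ}) ?_ ((Set.finite_singleton _).insert _).countable
    rintro A ⟨hA, hT⟩
    have h1 := rigid (hA0.symmDiff hA) (by
      intro s
      have e : ∀ x : Gam, x ∈ _root_.symmDiff A0 ((fun x => x * a 0) '' A0) ↔
          x ∈ _root_.symmDiff A ((fun x => x * a 0) '' A) := by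
        intro x; rw [hT0, hT]
      have e1 := e (s * a 0)
      rw [Set.mem_symmDiff, Set.mem_symmDiff, mem_image_mul, mem_image_mul,
        mul_inv_cancel_right] at e1
      rw [Set.mem_symmDiff, Set.mem_symmDiff]
      tauto)
    rcases h1 with h1 | h1
    · left
      have : A0 = A := by
        rwa [← Set.bot_eq_empty, symmDiff_eq_bot] at h1
      exact this.symm
    · right
      ext s
      have : s ∈ _root_.symmDiff A0 A := by rw [h1]; trivial
      rw [Set.mem_symmDiff] at this
      rw [Set.mem_compl_iff]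
      tauto
  · rw [Set.not_nonempty_iff_eq_empty] at hne
    rw [hne]
    exact Set.countable_empty

end Pool.Agent.Q281.KG
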