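import Mathlib

/-!
# Two facts on free groups

* `x ↦ x ^ (e x)` induces an injective endomorphism of the free group;
* the connecting endomorphism `a ↦ a ^ 2 * b ^ 2` is injective.
-/

set_option autoImplicit false

namespace Pool.Agent.Q281.KG

open FreeGroup

variable {α : Type} [DecidableEq α]

/-- repeat every letter -/
def rep (e : α → ℕ) (L : List (α × Bool)) : List (α × Bool) :=
  L.flatMap (fun p => List.replicate (e p.1) p)

theorem rep_reduced {e : α → ℕ} (he : ∀ x, 1 ≤ e x) : ∀ {L : List (α × Bool)}, IsReduced L →
    IsReduced (rep e L)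
  | [], _ => by simp [rep]
  | [p], _ => by
    have : rep e [p] = List.replicate (e p.1) p := by simp [rep]
    rw [this, isReduced_iff_reduce_eq, reduce_replicate]
  | p :: q :: L, h => by
    have h1 : (p.1 = q.1 → p.2 = q.2) ∧ IsReduced (q :: L) := by
      simpa [FreeGroup.IsReduced, List.isChain_cons_cons] using h
    have ih := rep_reduced he h1.2
    have e1 : rep e (p :: q :: L) = List.replicate (e p.1) p ++ rep e (q :: L) := by
      simp [rep]
    have e2 : ∃ t, rep e (q :: L) = q :: t := by
      obtain ⟨k, hk⟩ : ∃ k, e q.1 = k + 1 := ⟨e q.1 - 1, by have := he q.1; omega⟩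
      refine ⟨List.replicate k q ++ rep e L, ?_⟩
      simp [rep, hk, List.replicate_succ]
    obtain ⟨t, ht⟩ := e2
    rw [e1, ht]
    rw [ht] at ih
    generalize e p.1 = n
    induction n with
    | zero => simpa using ih
    | succ n ihn =>
      rw [List.replicate_succ, List.cons_append]
      cases n with
      | zero =>
        simp only [List.replicate_zero, List.nil_append] at ihn ⊢
        simp only [FreeGroup.IsReduced, List.isChain_cons_cons] at ihn ⊢
        exact ⟨h1.1, ihn⟩
      | succ n =>
        rw [List.replicate_succ, List.cons_append] at ihn ⊢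
        simp only [FreeGroup.IsReduced, List.isChain_cons_cons] at ihn ⊢
        exact ⟨fun _ => trivial, ihn⟩

theorem lift_pow_mk (e : α → ℕ) (L : List (α × Bool)) :
    FreeGroup.lift (fun x => (of x) ^ e x) (FreeGroup.mk L) = FreeGroup.mk (rep e L) := by
  induction L with
  | nil => simp [rep, ← FreeGroup.one_eq_mk]
  | cons p L ih =>
    have h1 : FreeGroup.mk (p :: L) = FreeGroup.mk [p] * FreeGroup.mk L := by
      rw [FreeGroup.mul_mk]; rfl
    have h2 : FreeGroup.mk (rep e (p :: L)) = FreeGroup.mk (List.replicate (e p.1) p) *
        FreeGroup.mk (rep e L) := by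
      rw [FreeGroup.mul_mk]; simp [rep]
    have h3 : ∀ n : ℕ, FreeGroup.mk (List.replicate n p) = FreeGroup.mk [p] ^ n := by
      intro n
      induction n with
      | zero => simp [← FreeGroup.one_eq_mk]
      | succ n ihn =>
        rw [pow_succ', ← ihn, FreeGroup.mul_mk]
        rfl
    rw [h1, _root_.map_mul, ih, h2, h3]
    congr 1
    obtain ⟨x, b⟩ := p
    cases b
    · have : (FreeGroup.mk [(x, false)] : FreeGroup α) = (of x)⁻¹ := by
        simp [of, FreeGroup.inv_mk, FreeGroup.invRev]
      rw [this, _root_.map_inv, lift_apply_of, inv_pow]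
    · have : (FreeGroup.mk [(x, true)] : FreeGroup α) = (of x) := rfl
      rw [this, lift_apply_of]

theorem lift_pow_injective {e : α → ℕ} (he : ∀ x, 1 ≤ e x) :
    Function.Injective (FreeGroup.lift (fun x : α => (of x) ^ e x)) := by
  rw [injective_iff_map_eq_one]
  intro w hw
  have h1 : w = FreeGroup.mk w.toWord := (mk_toWord).symm
  rw [h1, lift_pow_mk] at hw
  have h2 := congrArg toWord hw
  rw [toWord_mk, (rep_reduced he isReduced_toWord).reduce_eq, toWord_one] at h2
  rw [← toWord_eq_nil_iff]
  cases hL : w.toWord with
  | nil => rfl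
  | cons p L =>
    rw [hL] at h2
    exfalso
    have := he p.1
    simp only [rep, List.flatMap_cons, List.append_eq_nil_iff, List.replicate_eq_nil_iff] at h2
    omega

/-- the connecting endomorphism: the letter `none` goes to `none ^ 2 * (some m) ^ 2` -/
def phi (m : ℕ) : FreeGroup (Option ℕ) →* FreeGroup (Option ℕ) :=
  FreeGroup.lift (fun x => match x with
    | none => (of none) ^ 2 * (of (some m)) ^ 2
    | some i => of (some i))

@[simp] theorem phi_none (m : ℕ) : phi m (of none) = (of none) ^ 2 * (of (some m)) ^ 2 := by
  simp [phi]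
@[simp] theorem phi_some (m i : ℕ) : phi m (of (some i)) = of (some i) := by simp [phi]

theorem phi_injective (m : ℕ) : Function.Injective (phi m) := by
  let e : Option ℕ → ℕ := fun x => match x with
    | none => 2
    | some _ => 1
  have he : ∀ x, 1 ≤ e x := by
    intro x; cases x <;> simp [e]
  let s : FreeGroup (Option ℕ) →* FreeGroup (Option ℕ) := FreeGroup.lift (fun x => match x with
    | none => (of none) * (of (some m)) ^ 2
    | some i => of (some i))
  let s' : FreeGroup (Option ℕ) →* FreeGroup (Option ℕ) := FreeGroup.lift (fun x => match x with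
    | none => (of none) * ((of (some m)) ^ 2)⁻¹
    | some i => of (some i))
  have hs : s'.comp s = MonoidHom.id _ := by
    ext x
    cases x with
    | none => simp [s, s']
    | some i => simp [s, s']
  have hsi : Function.Injective s := by
    intro x y hxy
    have := congrArg s' hxy
    rwa [← MonoidHom.comp_apply, ← MonoidHom.comp_apply, hs] at this
  have : phi m = (FreeGroup.lift (fun x : Option ℕ => (of x) ^ e x)).comp s := by
    ext x
    cases x with
    | none => simp [s, e]
    | some i => simp [s, e]
  rw [this, MonoidHom.coe_comp]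
  exact (lift_pow_injective he).comp hsi

end Pool.Agent.Q281.KG
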