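import Pool.Agent.Q281.KG.Free

/-!
# A group of Kurosh type

`Gam` is generated by `a 0, a 1, …, b 0, b 1, …` with the relations `a m = a (m+1) ^ 2 * b m ^ 2`.
It is the union of the free groups on `a m, b 0, b 1, …`.
-/

set_option autoImplicit false

namespace Pool.Agent.Q281.KG

open FreeGroup

/-- the relations -/
def rels : Set (FreeGroup (ℕ ⊕ ℕ)) := Set.range fun m : ℕ =>
  (of (Sum.inl m))⁻¹ * ((of (Sum.inl (m + 1))) ^ 2 * (of (Sum.inr m)) ^ 2)

/-- the group -/
abbrev Gam : Type := PresentedGroup rels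

/-- the generators `a m` -/
def a (m : ℕ) : Gam := PresentedGroup.of (Sum.inl m)
/-- the generators `b m` -/
def b (m : ℕ) : Gam := PresentedGroup.of (Sum.inr m)

theorem rel (m : ℕ) : a m = a (m + 1) ^ 2 * b m ^ 2 := by
  have h : PresentedGroup.mk rels ((of (Sum.inl m))⁻¹ *
      ((of (Sum.inl (m + 1))) ^ 2 * (of (Sum.inr m)) ^ 2)) = 1 :=
    PresentedGroup.one_of_mem (Set.mem_range_self m)
  rw [_root_.map_mul, _root_.map_inv, inv_mul_eq_one] at h
  rw [_root_.map_mul, map_pow, map_pow] at h
  exact h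

/-- the universal property -/
def lift {H : Type} [Group H] (α β : ℕ → H) (h : ∀ m, α m = α (m + 1) ^ 2 * β m ^ 2) :
    Gam →* H :=
  PresentedGroup.toGroup (rels := rels) (f := Sum.elim α β) (by
    rintro _ ⟨m, rfl⟩
    simp [← h m])

section
variable {H : Type} [Group H] (α β : ℕ → H) (h : ∀ m, α m = α (m + 1) ^ 2 * β m ^ 2)

@[simp] theorem lift_a (m : ℕ) : lift α β h (a m) = α m := by simp [lift, a]
@[simp] theorem lift_b (m : ℕ) : lift α β h (b m) = β m := by simp [lift, b]
end

theorem hom_ext {H : Type} [Group H] {f g : Gam →* H} (h1 : ∀ m, f (a m) = g (a m))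
    (h2 : ∀ m, f (b m) = g (b m)) : f = g := by
  apply PresentedGroup.ext
  rintro (m | m)
  · exact h1 m
  · exact h2 m

/-- the stages -/
def st (m : ℕ) : FreeGroup (Option ℕ) →* Gam :=
  FreeGroup.lift (fun x => match x with
    | none => a m
    | some i => b i)

@[simp] theorem st_none (m : ℕ) : st m (of none) = a m := by simp [st]
@[simp] theorem st_some (m i : ℕ) : st m (of (some i)) = b i := by simp [st]

theorem st_phi (m : ℕ) : (st (m + 1)).comp (phi m) = st m := by
  ext x
  cases x with
  | none => simp [rel m]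
  | some i => simp

/-- transition maps -/
def trans (m : ℕ) : ℕ → (FreeGroup (Option ℕ) →* FreeGroup (Option ℕ))
  | 0 => MonoidHom.id _
  | k + 1 => (phi (m + k)).comp (trans m k)

theorem trans_succ (m k : ℕ) : trans m (k + 1) = (trans (m + 1) k).comp (phi m) := by
  induction k with
  | zero => simp [trans]
  | succ k ih =>
    rw [trans, ih, trans, MonoidHom.comp_assoc]
    congr 2
    omega

theorem trans_injective (m k : ℕ) : Function.Injective (trans m k) := by
  induction k with
  | zero => exact fun x y h => h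
  | succ k ih =>
    rw [trans, MonoidHom.coe_comp]
    exact (phi_injective _).comp ih

theorem trans_some (m k i : ℕ) : trans m k (of (some i)) = of (some i) := by
  induction k with
  | zero => rfl
  | succ k ih => rw [trans, MonoidHom.comp_apply, ih, phi_some]

theorem st_trans (m k : ℕ) : (st (m + k)).comp (trans m k) = st m := by
  induction k with
  | zero => rfl
  | succ k ih =>
    rw [trans, ← MonoidHom.comp_assoc, ← add_assoc, st_phi, ih]

/-- germs at infinity of sequences -/
abbrev Gm : Type := Filter.Germ (Filter.atTop : Filter ℕ) (FreeGroup (Option ℕ))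

/-- the germ of an element of a stage -/
def gm (m : ℕ) : FreeGroup (Option ℕ) →* Gm :=
  (Filter.Germ.coeMulHom (Filter.atTop : Filter ℕ)).comp
    (Pi.monoidHom (fun n => trans m (n - m)))

theorem gm_apply (m : ℕ) (w : FreeGroup (Option ℕ)) :
    gm m w = ((fun n => trans m (n - m) w : ℕ → FreeGroup (Option ℕ)) : Gm) := rfl

theorem gm_succ (m : ℕ) (w : FreeGroup (Option ℕ)) : gm (m + 1) (phi m w) = gm m w := by
  rw [gm_apply, gm_apply, Filter.Germ.coe_eq]
  filter_upwards [Filter.eventually_ge_atTop (m + 1)] with n hn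
  obtain ⟨k, rfl⟩ := Nat.exists_eq_add_of_le hn
  have e1 : m + 1 + k - (m + 1) = k := by omega
  have e2 : m + 1 + k - m = k + 1 := by omega
  rw [e1, e2, trans_succ, MonoidHom.comp_apply]

theorem gm_some (m i : ℕ) : gm m (of (some i)) = gm 0 (of (some i)) := by
  rw [gm_apply, gm_apply, Filter.Germ.coe_eq]
  filter_upwards with n
  rw [trans_some, trans_some]

theorem gm_injective (m : ℕ) : Function.Injective (gm m) := by
  intro x y hxy
  rw [gm_apply, gm_apply, Filter.Germ.coe_eq] at hxy
  obtain ⟨n, hn⟩ := hxy.exists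
  exact trans_injective _ _ hn

/-- the model -/
def psi : Gam →* Gm :=
  lift (fun m => gm m (of none)) (fun m => gm 0 (of (some m))) (by
    intro m
    rw [← gm_succ m, phi_none, _root_.map_mul, map_pow, map_pow, gm_some])

theorem psi_st (m : ℕ) : psi.comp (st m) = gm m := by
  ext x
  cases x with
  | none => simp [psi]
  | some i => simp [psi, gm_some m]

theorem st_injective (m : ℕ) : Function.Injective (st m) := by
  intro x y hxy
  apply gm_injective m
  rw [← psi_st, MonoidHom.comp_apply, MonoidHom.comp_apply, hxy]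

theorem exists_st_ge (g : Gam) : ∃ m, ∀ n, m ≤ n → ∃ w, st n w = g := by
  have key : ∀ m n, m ≤ n → ∀ w, ∃ w', st n w' = st m w := by
    intro m n hmn w
    obtain ⟨k, rfl⟩ := Nat.exists_eq_add_of_le hmn
    exact ⟨trans m k w, by rw [← MonoidHom.comp_apply, st_trans]⟩
  have hg : g ∈ Subgroup.closure (Set.range (PresentedGroup.of : (ℕ ⊕ ℕ) → Gam)) := by
    rw [PresentedGroup.closure_range_of]; trivial
  induction hg using Subgroup.closure_induction with
  | mem x hx =>
    obtain ⟨(m | m), rfl⟩ := hx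
    · refine ⟨m, fun n hn => ?_⟩
      obtain ⟨w, hw⟩ := key m n hn (of none)
      exact ⟨w, by rw [hw, st_none]; rfl⟩
    · exact ⟨0, fun n _ => ⟨of (some m), st_some _ _⟩⟩
  | one => exact ⟨0, fun n _ => ⟨1, _root_.map_one _⟩⟩
  | mul x y _ _ hx hy =>
    obtain ⟨m, hm⟩ := hx
    obtain ⟨n, hn⟩ := hy
    refine ⟨max m n, fun k hk => ?_⟩
    obtain ⟨w, hw⟩ := hm k (le_trans (le_max_left _ _) hk)
    obtain ⟨w', hw'⟩ := hn k (le_trans (le_max_right _ _) hk)
    exact ⟨w * w', by rw [_root_.map_mul, hw, hw']⟩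
  | inv x _ hx =>
    obtain ⟨m, hm⟩ := hx
    refine ⟨m, fun k hk => ?_⟩
    obtain ⟨w, hw⟩ := hm k hk
    exact ⟨w⁻¹, by rw [_root_.map_inv, hw]⟩

theorem torsion_free (g : Gam) (hg : g ≠ 1) (n : ℕ) (hn : n ≠ 0) : g ^ n ≠ 1 := by
  obtain ⟨m, hm⟩ := exists_st_ge g
  obtain ⟨w, rfl⟩ := hm m le_rfl
  intro h
  apply hg
  rw [← map_pow] at h
  have h1 : w ^ n = 1 := st_injective m (by rw [h, _root_.map_one])
  have h2 : w = 1 := by
    have := IsMulTorsionFree.pow_left_injective (M := FreeGroup (Option ℕ)) hn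
    exact this (by simpa using h1)
  rw [h2, _root_.map_one]

instance : Countable Gam := by
  have : Countable (FreeGroup (ℕ ⊕ ℕ)) := Quot.mk_surjective.countable
  exact Quotient.countable

end Pool.Agent.Q281.KG
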