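import Pool.Agent.Q281.KG.Ends
import Pool.Agent.H599R3.RH.Bs2

/-!
# Indecomposable subgroups of free products, and the self-similarity of the group of Kurosh type
-/

set_option autoImplicit false

namespace Pool.Agent.Q281.KG

open Monoid H599R3.RH

section tree
variable {C D : Type} [Group C] [Group D]

/-- the two factors -/
abbrev LC (C D : Type) [Group C] [Group D] : Subgroup (Coprod C D) :=
  (Coprod.inl : C →* Coprod C D).range
/-- the two factors -/
abbrev RD (C D : Type) [Group C] [Group D] : Subgroup (Coprod C D) :=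
  (Coprod.inr : D →* Coprod C D).range

/-- vertices of the Bass-Serre tree of a free product -/
abbrev Vx (C D : Type) [Group C] [Group D] : Type :=
  (Coprod C D ⧸ LC C D) ⊕ (Coprod C D ⧸ RD C D)

/-- the twisted right action of the first factor -/
def rC (C D : Type) [Group C] [Group D] : C →* Equiv.Perm (Coprod C D × ZMod 2) where
  toFun c :=
    { toFun := fun x => (x.1 * (Coprod.inl c)⁻¹, x.2)
      invFun := fun x => (x.1 * (Coprod.inl c), x.2)
      left_inv := fun x => by simp
      right_inv := fun x => by simp }
  map_one' := by ext x <;> simp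
  map_mul' c c' := by ext x <;> simp [mul_assoc]

/-- the twisted right action of the second factor -/
def rD (φ : Coprod C D → ZMod 2) : D →* Equiv.Perm (Coprod C D × ZMod 2) where
  toFun d :=
    { toFun := fun x => (x.1 * (Coprod.inr d)⁻¹, x.2 + φ x.1 - φ (x.1 * (Coprod.inr d)⁻¹))
      invFun := fun x => (x.1 * (Coprod.inr d), x.2 + φ x.1 - φ (x.1 * (Coprod.inr d)))
      left_inv := fun x => by simp
      right_inv := fun x => by simp }
  map_one' := by ext x <;> simp
  map_mul' c c' := by
    ext x
    · simp [mul_assoc]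
    · simp [mul_assoc]

/-- the twisted action -/
def rho (φ : Coprod C D → ZMod 2) : Coprod C D →* Equiv.Perm (Coprod C D × ZMod 2) :=
  Coprod.lift (rC C D) (rD φ)

theorem rho_fst (φ : Coprod C D → ZMod 2) (h : Coprod C D) :
    ∀ x, (rho φ h x).1 = x.1 * h⁻¹ := by
  induction h using Coprod.induction_on' with
  | one => intro x; simp
  | inl_mul c h ih =>
    intro x
    rw [map_mul, Equiv.Perm.mul_apply]
    simp only [rho, Coprod.lift_apply_inl] at ih ⊢
    change (_ : Coprod C D) * _ = _
    rw [ih, mul_inv_rev, mul_assoc]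
  | inr_mul d h ih =>
    intro x
    rw [map_mul, Equiv.Perm.mul_apply]
    simp only [rho, Coprod.lift_apply_inr] at ih ⊢
    change (_ : Coprod C D) * _ = _
    rw [ih, mul_inv_rev, mul_assoc]

/-- the potential of a function on the edges -/
def pot (φ : Coprod C D → ZMod 2) (g : Coprod C D) : ZMod 2 := (rho φ g⁻¹ (1, 0)).2

theorem rho_inv (φ : Coprod C D → ZMod 2) (g : Coprod C D) :
    rho φ g⁻¹ (1, 0) = (g, pot φ g) := by
  refine Prod.ext ?_ rfl
  rw [rho_fst]; simp

theorem pot_inl (φ : Coprod C D → ZMod 2) (g : Coprod C D) (c : C) :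
    pot φ (g * Coprod.inl c) = pot φ g := by
  have h : rho φ (g * Coprod.inl c)⁻¹ (1, 0) = rho φ (Coprod.inl c⁻¹) (rho φ g⁻¹ (1, 0)) := by
    rw [mul_inv_rev, map_mul, Equiv.Perm.mul_apply, (Coprod.inl : C →* Coprod C D).map_inv]
  have h2 := congrArg Prod.snd h
  rw [rho_inv, rho_inv] at h2
  simp only [rho, Coprod.lift_apply_inl] at h2
  exact h2

theorem pot_inr (φ : Coprod C D → ZMod 2) (g : Coprod C D) (d : D) :
    pot φ (g * Coprod.inr d) = pot φ g + φ g - φ (g * Coprod.inr d) := by
  have h : rho φ (g * Coprod.inr d)⁻¹ (1, 0) = rho φ (Coprod.inr d⁻¹) (rho φ g⁻¹ (1, 0)) := by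
    rw [mul_inv_rev, map_mul, Equiv.Perm.mul_apply, (Coprod.inr : D →* Coprod C D).map_inv]
  have h2 := congrArg Prod.snd h
  rw [rho_inv, rho_inv] at h2
  simp only [rho, Coprod.lift_apply_inr] at h2
  have h3 : (rD φ d⁻¹ (g, pot φ g)).2 = pot φ g + φ g - φ (g * (Coprod.inr d⁻¹)⁻¹) := rfl
  rw [h3, map_inv, inv_inv] at h2
  exact h2

/-- a function on the vertices with given differences along the edges -/
noncomputable def potV (φ : Coprod C D → ZMod 2) : Vx C D → ZMod 2 :=
  Sum.elim
    (Quotient.lift (fun g => pot φ g) (by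
      intro g g' h
      have h2 := QuotientGroup.leftRel_apply.1 h
      obtain ⟨c, hc⟩ := h2
      have : g' = g * Coprod.inl c := by rw [hc]; group
      change pot φ g = pot φ g'
      rw [this, pot_inl]))
    (Quotient.lift (fun g => pot φ g + φ g) (by
      intro g g' h
      have h2 := QuotientGroup.leftRel_apply.1 h
      obtain ⟨c, hc⟩ := h2
      have : g' = g * Coprod.inr c := by rw [hc]; group
      change pot φ g + φ g = pot φ g' + φ g'
      rw [this, pot_inr]; ring))

variable {A : Type} [Group A]

/-- the action of a group mapping to the free product on the vertices -/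
abbrev actV (f : A →* Coprod C D) : MulAction A (Vx C D) := MulAction.compHom _ f
/-- the action of a group mapping to the free product on the edges -/
abbrev actE (f : A →* Coprod C D) : MulAction A (Coprod C D) := MulAction.compHom _ f

/-- the Bass-Serre tree of a free product -/
def tree (f : A →* Coprod C D) : @Tree A (Vx C D) (Coprod C D) _ (actV f) (actE f) :=
  letI := actV f
  letI := actE f
  { d0 := fun g => Sum.inl (g : Coprod C D ⧸ LC C D)
    d1 := fun g => Sum.inr (g : Coprod C D ⧸ RD C D)
    s0 := fun _ _ => rfl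
    s1 := fun _ _ => rfl
    conn := fun {M} F hF => by
      have h1 : ∀ h g : Coprod C D, F (Sum.inl ((g * h : Coprod C D) : Coprod C D ⧸ LC C D)) =
          F (Sum.inl (g : Coprod C D ⧸ LC C D)) := by
        intro h
        induction h using Coprod.induction_on' with
        | one => intro g; rw [mul_one]
        | inl_mul c h ih =>
          intro g
          rw [← mul_assoc, ih]
          congr 2
          rw [QuotientGroup.eq]
          exact ⟨c⁻¹, by simp⟩
        | inr_mul d h ih =>
          intro g
          rw [← mul_assoc, ih, ← hF, ← hF g]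
          congr 2
          rw [QuotientGroup.eq]
          exact ⟨d⁻¹, by simp⟩
      have h2 : ∀ u, F u = F (Sum.inl ((1 : Coprod C D) : Coprod C D ⧸ LC C D)) := by
        rintro (u | u)
        · induction u using QuotientGroup.induction_on with
          | H g => simpa using h1 g 1
        · induction u using QuotientGroup.induction_on with
          | H g => rw [hF g]; simpa using h1 g 1
      intro u v
      rw [h2 u, h2 v]
    surj := fun φ => ⟨potV φ, fun e => by
      change (pot φ e + φ e) - pot φ e = φ e
      ring⟩ }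

theorem cyc_of_subsingleton (h : ∀ x : A, x = 1) : Cyc A := ⟨1, fun g => ⟨0, by simp [h g]⟩⟩

/-- **Kurosh theorem for indecomposable subgroups of free products** -/
theorem kurosh (f : A →* Coprod C D) (hf : Function.Injective f)
    (htf : ∀ g : A, g ≠ 1 → ∀ n : ℕ, n ≠ 0 → g ^ n ≠ 1) (hs : ¬ Splits A) (hc : ¬ Cyc A) :
    (∃ g, ∀ x, ∃ c : C, f x = g * Coprod.inl c * g⁻¹) ∨
    (∃ g, ∀ x, ∃ d : D, f x = g * Coprod.inr d * g⁻¹) := by
  let iV := actV f
  let iE := actE f
  have hE : ∀ (x : A) (e : Coprod C D), x • e = f x * e := fun _ _ => rfl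
  have hVl : ∀ (x : A) (g : Coprod C D), x • (Sum.inl (g : Coprod C D ⧸ LC C D) : Vx C D) =
    Sum.inl ((f x * g : Coprod C D) : Coprod C D ⧸ LC C D) := fun _ _ => rfl
  have hVr : ∀ (x : A) (g : Coprod C D), x • (Sum.inr (g : Coprod C D ⧸ RD C D) : Vx C D) =
    Sum.inr ((f x * g : Coprod C D) : Coprod C D ⧸ RD C D) := fun _ _ => rfl
  have he : ∀ (e : Coprod C D) (x : A), x • e = e → x = 1 := by
    intro e x h
    apply hf
    rw [hE] at h
    rw [map_one]
    exact mul_eq_right.1 h
  by_cases hfix : ∃ (v : Vx C D) (x : A), x ≠ 1 ∧ x • v = v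
  · obtain ⟨v, x, hx1, hx⟩ := hfix
    have hall : ∀ y : A, y • v = v := by
      intro y
      apply eq_of_unsep (tree f)
      intro e
      have := step1 (T := tree f) htf hs hc e (he e) v x hx1 hx y 1
      rwa [one_smul] at this
    rcases v with v | v
    · left
      induction v using QuotientGroup.induction_on with
      | H g =>
        refine ⟨g, fun y => ?_⟩
        have h1 := hall y
        rw [hVl] at h1
        have h2 := (QuotientGroup.eq.1 (Sum.inl_injective h1).symm)
        obtain ⟨c, hc⟩ := h2
        exact ⟨c, by rw [hc]; group⟩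
    · right
      induction v using QuotientGroup.induction_on with
      | H g =>
        refine ⟨g, fun y => ?_⟩
        have h1 := hall y
        rw [hVr] at h1
        have h2 := (QuotientGroup.eq.1 (Sum.inr_injective h1).symm)
        obtain ⟨c, hc⟩ := h2
        exact ⟨c, by rw [hc]; group⟩
  · exfalso
    push Not at hfix
    have hnt : ∃ g0 : A, g0 ≠ 1 := by
      by_contra h
      push Not at h
      exact hc (cyc_of_subsingleton h)
    obtain ⟨g0, hg0⟩ := hnt
    rcases free_case htf (tree f) (fun v g hg => by
      by_contra h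
      exact hfix v g h hg) (Sum.inl ((1 : Coprod C D) : Coprod C D ⧸ LC C D)) g0 hg0 with h | h
    · exact hs h
    · exact hc h

end tree

end Pool.Agent.Q281.KG
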