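import Pool.Agent.Q281.KG.Kurosh

/-!
# The group of Kurosh type is not a finite free product of freely indecomposable groups
-/

set_option autoImplicit false

namespace Pool.Agent.Q281.KG

open Monoid H599R3.RH

/-- the shift of the group -/
def shift : Gam →* Gam := lift (fun m => a (m + 1)) (fun m => b (m + 1)) (fun m => rel (m + 1))

/-- the splitting off of an infinite cyclic factor -/
def fwd : Gam →* Coprod Gam (Multiplicative ℤ) :=
  lift
    (fun m => match m with
      | 0 => (Coprod.inl (a 0)) ^ 2 * (Coprod.inr (Multiplicative.ofAdd 1)) ^ 2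
      | m + 1 => Coprod.inl (a m))
    (fun m => match m with
      | 0 => Coprod.inr (Multiplicative.ofAdd 1)
      | m + 1 => Coprod.inl (b m))
    (by
      intro m
      cases m with
      | zero => rfl
      | succ m =>
        change Coprod.inl (a m) = Coprod.inl (a (m + 1)) ^ 2 * Coprod.inl (b m) ^ 2
        rw [← map_pow, ← map_pow, ← map_mul, ← rel])

/-- its inverse -/
def bwd : Coprod Gam (Multiplicative ℤ) →* Gam := Coprod.lift shift (zpowersHom Gam (b 0))

theorem bwd_fwd : bwd.comp fwd = MonoidHom.id _ := by
  apply hom_ext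
  · intro m
    cases m with
    | zero =>
      rw [MonoidHom.comp_apply, fwd, lift_a]
      change bwd ((Coprod.inl (a 0)) ^ 2 * (Coprod.inr (Multiplicative.ofAdd 1)) ^ 2) = a 0
      rw [map_mul, map_pow, map_pow, bwd, Coprod.lift_apply_inl, Coprod.lift_apply_inr, shift,
        lift_a, rel 0]
      simp
    | succ m =>
      rw [MonoidHom.comp_apply, fwd, lift_a]
      change bwd (Coprod.inl (a m)) = a (m + 1)
      rw [bwd, Coprod.lift_apply_inl, shift, lift_a]
  · intro m
    cases m with
    | zero =>
      rw [MonoidHom.comp_apply, fwd, lift_b]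
      change bwd (Coprod.inr (Multiplicative.ofAdd 1)) = b 0
      rw [bwd, Coprod.lift_apply_inr]
      simp
    | succ m =>
      rw [MonoidHom.comp_apply, fwd, lift_b]
      change bwd (Coprod.inl (b m)) = b (m + 1)
      rw [bwd, Coprod.lift_apply_inl, shift, lift_b]

theorem fwd_injective : Function.Injective fwd := by
  intro x y h
  have := congrArg bwd h
  rwa [← MonoidHom.comp_apply, ← MonoidHom.comp_apply, bwd_fwd] at this

/-- the coefficient modulo 2 of `b j` -/
def bet (j : ℕ) : Gam →* Multiplicative (ZMod 2) :=
  lift (fun _ => 1) (fun i => if i = j then Multiplicative.ofAdd 1 else 1) (by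
    intro m
    split_ifs
    · rfl
    · rfl)

theorem bet_b (i j : ℕ) : bet j (b i) = if i = j then Multiplicative.ofAdd 1 else 1 := by
  simp [bet]

theorem bet_shift_zero : (bet 0).comp shift = 1 := by
  apply hom_ext
  · intro m; simp [bet, shift]
  · intro m; simp [bet, shift]

theorem bet_shift_succ (j : ℕ) : (bet (j + 1)).comp shift = bet j := by
  apply hom_ext
  · intro m; simp [bet, shift]
  · intro m; simp [bet, shift]

variable {A : Type} [Group A]

theorem cyc_of_injective (f : A →* Multiplicative ℤ) (hf : Function.Injective f) : Cyc A := by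
  have : IsCyclic A := isCyclic_of_injective f hf
  obtain ⟨t, ht⟩ := IsCyclic.exists_generator (α := A)
  exact ⟨t, fun g => (Subgroup.mem_zpowers_iff).1 (ht g)⟩

theorem bet_one (hs : ¬ Splits A) (hc : ¬ Cyc A) (j : ℕ) :
    ∀ f : A →* Gam, Function.Injective f → ∀ x, bet j (f x) = 1 := by
  have step : ∀ f : A →* Gam, Function.Injective f → ∃ (f' : A →* Gam) (g : Gam),
      Function.Injective f' ∧ ∀ x, f x = g * shift (f' x) * g⁻¹ := by
    intro f hf
    have htf : ∀ g : A, g ≠ 1 → ∀ n : ℕ, n ≠ 0 → g ^ n ≠ 1 := by
      intro g hg n hn h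
      apply torsion_free (f g) (fun h1 => hg (hf (by rw [h1, map_one]))) n hn
      rw [← map_pow, h, map_one]
    rcases kurosh (fwd.comp f) (fwd_injective.comp hf) htf hs hc with ⟨g, hg⟩ | ⟨g, hg⟩
    · let f' : A →* Gam :=
        { toFun := fun x => Coprod.fst (g⁻¹ * fwd (f x) * g)
          map_one' := by simp
          map_mul' := fun x y => by
            rw [← map_mul, map_mul f, map_mul fwd]
            congr 1; group }
      have hf' : ∀ x, fwd (f x) = g * Coprod.inl (f' x) * g⁻¹ := by
        intro x
        obtain ⟨c, hc⟩ := hg x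
        have h1 : f' x = c := by
          change Coprod.fst (g⁻¹ * fwd (f x) * g) = c
          rw [MonoidHom.comp_apply] at hc
          rw [hc]
          have : g⁻¹ * (g * Coprod.inl c * g⁻¹) * g = Coprod.inl c := by group
          rw [this, Coprod.fst_apply_inl]
        rw [h1]; exact hc
      refine ⟨f', bwd g, ?_, ?_⟩
      · intro x y hxy
        apply hf
        apply fwd_injective
        rw [hf', hf', hxy]
      · intro x
        have h1 : f x = bwd (fwd (f x)) := by
          rw [← MonoidHom.comp_apply bwd fwd, bwd_fwd]; rfl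
        rw [h1, hf', map_mul, map_mul, map_inv]
        congr 2
    · exfalso
      apply hc
      let f' : A →* Multiplicative ℤ :=
        { toFun := fun x => Coprod.snd (g⁻¹ * fwd (f x) * g)
          map_one' := by simp
          map_mul' := fun x y => by
            rw [← map_mul, map_mul f, map_mul fwd]
            congr 1; group }
      have hf' : ∀ x, fwd (f x) = g * Coprod.inr (f' x) * g⁻¹ := by
        intro x
        obtain ⟨c, hc⟩ := hg x
        have h1 : f' x = c := by
          change Coprod.snd (g⁻¹ * fwd (f x) * g) = c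
          rw [MonoidHom.comp_apply] at hc
          rw [hc]
          have : g⁻¹ * (g * Coprod.inr c * g⁻¹) * g = Coprod.inr c := by group
          rw [this, Coprod.snd_apply_inr]
        rw [h1]; exact hc
      apply cyc_of_injective f'
      intro x y hxy
      apply hf
      apply fwd_injective
      rw [hf', hf', hxy]
  induction j with
  | zero =>
    intro f hf x
    obtain ⟨f', g, _, h⟩ := step f hf
    rw [h, map_mul, map_mul, map_inv, mul_comm (bet 0 g), mul_inv_cancel_right,
      ← MonoidHom.comp_apply, bet_shift_zero]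
    rfl
  | succ j ih =>
    intro f hf x
    obtain ⟨f', g, hf', h⟩ := step f hf
    rw [h, map_mul, map_mul, map_inv, mul_comm (bet (j + 1) g), mul_inv_cancel_right,
      ← MonoidHom.comp_apply, bet_shift_succ]
    exact ih f' hf' x

/-- **No finite Kurosh rank.** -/
theorem no_rank (n : ℕ) (H : Fin n → Type) [∀ i, Group (H i)] (hH : ∀ i, ¬ Splits (H i))
    (e : Gam ≃* CoprodI H) : False := by
  classical
  -- the vector of coefficients
  let B : Gam → (Fin (n + 1) → ZMod 2) := fun g j => Multiplicative.toAdd (bet j g)
  have hB1 : B 1 = 0 := by funext j; simp [B]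
  have hBm : ∀ x y, B (x * y) = B x + B y := by
    intro x y; funext j; simp [B]
  have hBz : ∀ (x : Gam) (k : ℤ), B (x ^ k) = k • B x := by
    intro x k; funext j; simp [B]
  let io : ∀ i, H i →* Gam := fun i => (e.symm : CoprodI H →* Gam).comp CoprodI.of
  have hio : ∀ i, Function.Injective (io i) := by
    intro i x y hxy
    exact CoprodI.of_injective i (e.symm.injective hxy)
  have hgen : ∀ i, ∃ w : Fin (n + 1) → ZMod 2, ∀ x : H i, ∃ k : ℤ, B (io i x) = k • w := by
    intro i
    by_cases hc : Cyc (H i)
    · obtain ⟨t, ht⟩ := hc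
      refine ⟨B (io i t), fun x => ?_⟩
      obtain ⟨k, hk⟩ := ht x
      exact ⟨k, by rw [← hk, map_zpow, hBz]⟩
    · refine ⟨0, fun x => ⟨0, ?_⟩⟩
      funext j
      have := bet_one (hH i) hc j (io i) (hio i) x
      simp [B, this]
  choose w hw using hgen
  let W : Submodule (ZMod 2) (Fin (n + 1) → ZMod 2) := Submodule.span (ZMod 2) (Set.range w)
  have hWz : ∀ (k : ℤ) (v : Fin (n + 1) → ZMod 2), v ∈ W → k • v ∈ W := by
    intro k v hv
    have : k • v = ((k : ZMod 2)) • v := by
      funext j
      simp
    rw [this]
    exact W.smul_mem _ hv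
  have hall : ∀ z : CoprodI H, B (e.symm z) ∈ W := by
    intro z
    induction z using CoprodI.induction_on with
    | one => rw [map_one, hB1]; exact W.zero_mem
    | of i x =>
      obtain ⟨k, hk⟩ := hw i x
      have : B (e.symm (CoprodI.of x)) = k • w i := hk
      rw [this]
      exact hWz k _ (Submodule.subset_span ⟨i, rfl⟩)
    | mul x y hx hy => rw [map_mul, hBm]; exact W.add_mem hx hy
  have hall' : ∀ g : Gam, B g ∈ W := by
    intro g
    have := hall (e g)
    rwa [e.symm_apply_apply] at this
  have htop : W = ⊤ := by
    rw [eq_top_iff]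
    intro v _
    have h1 : v = ∑ j, v j • (Pi.single j (1 : ZMod 2) : Fin (n + 1) → ZMod 2) := by
      funext k
      simp [Finset.sum_apply, Pi.single_apply]
    rw [h1]
    apply W.sum_mem
    intro j _
    apply W.smul_mem
    have h2 : (Pi.single j (1 : ZMod 2) : Fin (n + 1) → ZMod 2) = B (b (j : ℕ)) := by
      funext k
      simp only [B, bet_b, Pi.single_apply]
      by_cases hjk : k = j
      · subst hjk; simp
      · have : ¬ ((j : ℕ) = (k : ℕ)) := fun h => hjk (Fin.ext h.symm)
        simp [hjk, this]
    rw [h2]
    exact hall' _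
  have h3 : Module.finrank (ZMod 2) W ≤ n := by
    have := finrank_range_le_card (R := ZMod 2) w
    rw [Fintype.card_fin] at this
    exact this
  rw [htop, finrank_top, Module.finrank_fin_fun] at h3
  omega

end Pool.Agent.Q281.KG
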